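import Pool.Agent.Helper2.KZ.FAR
import Pool.Agent.Helper35.NW.ZD2
import Pool.Agent.Helper74.NW.ZED

/-!
# Project KZ, packet EN
-/

set_option autoImplicit false
set_option maxHeartbeats 4000000

namespace Pool.Agent.Helper2.KZ

open Pool.Agent.Helper52.Wq2 Pool.Agent.Helper61.NW Pool.Agent.Helper95.KZ
open Pool.Agent.Helper35.NW (tr mem_tr tr_conn tr_fin exists_conn_fin)
open Pool.Agent.Helper74.NW (Rel)

universe u

theorem conn_R {V : Type u} {G : SimpleGraph V} {s : Set V} (h : Conn G s) {x y : V}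
    (hx : x ∈ s) (hy : y ∈ s) : Relation.ReflTransGen (Rel G s) x y := by
  have := h.2 {v | v ∈ s ∧ Relation.ReflTransGen (Rel G s) x v} (fun v hv => hv.1)
    ⟨x, hx, Relation.ReflTransGen.refl⟩ (by
      rintro a ⟨ha, hr⟩ b hb hab
      exact ⟨hb, hr.tail ⟨hab, ha, hb⟩⟩)
  exact (this hy).2

theorem conn_R' {V : Type u} {G : SimpleGraph V} {s X : Set V} (h : Conn G s) (hsX : s ⊆ X)
    {x y : V} (hx : x ∈ s) (hy : y ∈ s) : Relation.ReflTransGen (Rel G X) x y :=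
  Pool.Agent.Helper74.NW.Rel.mono hsX (conn_R h hx hy)

theorem ht_tr {Γ : Type u} [Group Γ] {a b : Γ} (hab : a * b = b * a) {B s : Set Γ} {L : ℤ}
    (hL : ∀ i j : ℤ, ∀ x ∈ B, a ^ i * b ^ j * x ∈ s → |j| ≤ L) (n i j : ℤ) (x : Γ) (hx : x ∈ B)
    (h : a ^ i * b ^ j * x ∈ tr (b ^ n) s) : |j - n| ≤ L := by
  rw [mem_tr] at h
  refine hL i (j - n) x hx ?_
  have hc : a ^ i * b ^ (-n) = b ^ (-n) * a ^ i := ((show Commute a b from hab).zpow_zpow i (-n)).eq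
  have e : (b ^ n)⁻¹ * (a ^ i * b ^ j * x) = a ^ i * b ^ (j - n) * x := by
    have e2 : b ^ (j - n) = b ^ (-n) * b ^ j := by rw [← zpow_add]; congr 1; ring
    rw [← zpow_neg, e2, ← mul_assoc, ← mul_assoc, ← mul_assoc, ← hc]
  rwa [e] at h

theorem en (hSlc : SlcStmt.{u}) : EnStmt.{u} := by
  intro Γ _ S a b k B hP z l hzb hz hl hzl L hL0 hL hJ
  have hS := hP.gen
  obtain ⟨x₀, hx₀⟩ := hl.1
  obtain ⟨c, hc⟩ : ∃ c : ℤ, c = L + 1 := ⟨_, rfl⟩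
  obtain ⟨W, hWf, hWc, hWl, ⟨w, hwW, hw⟩, ⟨w', hwW', hw'⟩⟩ := hJ c
  obtain ⟨E, hEf, hEc, -, hEs⟩ := exists_conn_fin hS {x₀, b ^ c}
    ((Set.finite_singleton _).insert _)
  have hEx : x₀ ∈ E := hEs (by simp)
  have hEb : b ^ c ∈ E := hEs (by simp)
  obtain ⟨L', hL'0, hL'⟩ := far Γ S a b k B hP (W ∪ E) (hWf.union hEf)
  have hLW : ∀ i j : ℤ, ∀ x ∈ B, a ^ i * b ^ j * x ∈ W → |j| ≤ L' :=
    fun i j x hx h => hL' i j x hx (Or.inl h)
  have hLE : ∀ i j : ℤ, ∀ x ∈ B, a ^ i * b ^ j * x ∈ E → |j| ≤ L' :=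
    fun i j x hx h => hL' i j x hx (Or.inr h)
  obtain ⟨M, hM⟩ : ∃ M : ℤ, M = 2 * c + L + L' + 1 := ⟨_, rfl⟩
  have hM0 : 0 < M := by omega
  let T : ℕ → Set Γ := fun i => tr (b ^ (M * (i : ℤ))) l
  have hTc : ∀ i, Conn (cay S) (T i) := fun i => tr_conn hS _ hl
  have hht : ∀ (i' : ℕ) (i j : ℤ) (x : Γ), x ∈ B → a ^ i * b ^ j * x ∈ T i' →
      |j - M * (i' : ℤ)| ≤ L := fun i' i j x hx h => ht_tr hP.ab hL _ i j x hx h
  have hgap : ∀ i j : ℕ, i ≠ j → M ≤ |M * (i : ℤ) - M * (j : ℤ)| := by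
    intro i j hij
    rw [← mul_sub, abs_mul, abs_of_pos hM0]
    have h1 : 0 < |(i : ℤ) - j| :=
      abs_pos.2 (sub_ne_zero.2 (show (i : ℤ) ≠ j by exact_mod_cast hij))
    nlinarith
  have hx : ∀ i : ℕ, b ^ (M * (i : ℤ)) * x₀ ∈ T i := by
    intro i
    show (b ^ (M * (i : ℤ)))⁻¹ * (b ^ (M * (i : ℤ)) * x₀) ∈ l
    rw [inv_mul_cancel_left]
    exact hx₀
  -- complement of all the lines
  let Cm : Set Γ := {y | ∀ k, y ∉ T k}
  -- translates of `E`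
  have hEav : ∀ i j : ℕ, i ≠ j → ∀ y ∈ tr (b ^ (M * (i : ℤ))) E, y ∉ T j := by
    intro i j hij y hy hyT
    obtain ⟨i', j', x, hxB, rfl⟩ := hP.cov y
    have h1 := hht j i' j' x hxB hyT
    have h2 := ht_tr hP.ab hLE _ i' j' x hxB hy
    have h3 := hgap i j hij
    rw [abs_le] at h1 h2
    rcases abs_cases (M * (i : ℤ) - M * (j : ℤ)) with ⟨h4, _⟩ | ⟨h4, _⟩ <;> omega
  -- translates of `W`
  have hWav : ∀ i : ℕ, tr (b ^ (M * (i : ℤ))) W ⊆ Cm := by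
    intro i y hy j hyT
    by_cases hij : i = j
    · subst hij
      exact Set.disjoint_left.1 hWl hy hyT
    · obtain ⟨i', j', x, hxB, rfl⟩ := hP.cov y
      have h1 := hht j i' j' x hxB hyT
      have h2 := ht_tr hP.ab hLW _ i' j' x hxB hy
      have h3 := hgap i j hij
      rw [abs_le] at h1 h2
      rcases abs_cases (M * (i : ℤ) - M * (j : ℤ)) with ⟨h4, _⟩ | ⟨h4, _⟩ <;> omega
  -- bands
  let Bd : ℕ → Set Γ := fun i => Sl a b B (fun j => M * (i : ℤ) + c ≤ j ∧ j ≤ M * (i : ℤ) + M - c)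
  have hBdc : ∀ i, Conn (cay S) (Bd i) := by
    intro i
    refine hSlc Γ S a b k B hP _ ⟨M * (i : ℤ) + c, le_refl _, by omega⟩ ?_
    rintro i' j' l' ⟨h1, h2⟩ ⟨h3, h4⟩ h5 h6
    exact ⟨by omega, by omega⟩
  have hBav : ∀ i, Bd i ⊆ Cm := by
    rintro i y ⟨i', j', ⟨h1, h2⟩, x, hxB, rfl⟩ j hyT
    have h3 := hht j i' j' x hxB hyT
    rw [abs_le] at h3
    rcases Nat.lt_or_ge i j with hij | hij
    · have h4 : M * ((i : ℤ) + 1) ≤ M * (j : ℤ) :=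
        mul_le_mul_of_nonneg_left (by exact_mod_cast hij) hM0.le
      have h5 : M * ((i : ℤ) + 1) = M * (i : ℤ) + M := by ring
      omega
    · have h4 : M * (j : ℤ) ≤ M * (i : ℤ) :=
        mul_le_mul_of_nonneg_left (by exact_mod_cast hij) hM0.le
      omega
  have hβ : ∀ i : ℕ, b ^ (M * (i : ℤ) + c) ∈ Bd i := by
    intro i
    exact ⟨0, M * (i : ℤ) + c, ⟨le_refl _, by omega⟩, 1, hP.one, by rw [zpow_zero, one_mul, mul_one]⟩
  -- neighbouring bands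
  have hnb : ∀ i : ℕ, Relation.ReflTransGen (Rel (cay S) Cm) (b ^ (M * (i : ℤ) + c))
      (b ^ (M * ((i + 1 : ℕ) : ℤ) + c)) := by
    intro i
    have e0 : M * ((i + 1 : ℕ) : ℤ) = M * (i : ℤ) + M := by push_cast; ring
    obtain ⟨n, hn⟩ : ∃ n : ℤ, n = M * ((i + 1 : ℕ) : ℤ) := ⟨_, rfl⟩
    have hcm : ∀ (i' j' : ℤ) (x : Γ), b ^ n * (a ^ i' * b ^ j' * x) = a ^ i' * b ^ (j' + n) * x := by
      intro i' j' x
      have hc : a ^ i' * b ^ n = b ^ n * a ^ i' :=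
        ((show Commute a b from hP.ab).zpow_zpow i' n).eq
      have e2 : b ^ (j' + n) = b ^ n * b ^ j' := by rw [← zpow_add]; congr 1; ring
      rw [e2, ← mul_assoc, ← mul_assoc, ← mul_assoc, ← hc]
    -- lower end
    obtain ⟨i1, j1, hj1, x1, hx1, rfl⟩ := hw'
    obtain ⟨i2, j2, hj2, x2, hx2, rfl⟩ := hw
    have hb1 := hLW i1 j1 x1 hx1 hwW'
    have hb2 := hLW i2 j2 x2 hx2 hwW
    rw [abs_le] at hb1 hb2
    have m1 : b ^ n * (a ^ i1 * b ^ j1 * x1) ∈ tr (b ^ (M * ((i + 1 : ℕ) : ℤ))) W := by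
      rw [mem_tr, ← hn, inv_mul_cancel_left]
      exact hwW'
    have m2 : b ^ n * (a ^ i2 * b ^ j2 * x2) ∈ tr (b ^ (M * ((i + 1 : ℕ) : ℤ))) W := by
      rw [mem_tr, ← hn, inv_mul_cancel_left]
      exact hwW
    have m3 : b ^ n * (a ^ i1 * b ^ j1 * x1) ∈ Bd i := by
      rw [hcm]
      exact ⟨i1, j1 + n, ⟨by omega, by omega⟩, x1, hx1, rfl⟩
    have m4 : b ^ n * (a ^ i2 * b ^ j2 * x2) ∈ Bd (i + 1) := by
      rw [hcm]
      exact ⟨i2, j2 + n, ⟨by omega, by omega⟩, x2, hx2, rfl⟩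
    exact ((conn_R' (hBdc i) (hBav i) (hβ i) m3).trans
      (conn_R' (tr_conn hS _ hWc) (hWav (i + 1)) m1 m2)).trans
      (conn_R' (hBdc (i + 1)) (hBav (i + 1)) m4 (hβ (i + 1)))
  have hbb : ∀ i : ℕ, Relation.ReflTransGen (Rel (cay S) Cm) (b ^ (M * ((0 : ℕ) : ℤ) + c))
      (b ^ (M * (i : ℤ) + c)) := by
    intro i
    induction i with
    | zero => exact Relation.ReflTransGen.refl
    | succ i ih => exact ih.trans (hnb i)
  have hbb2 : ∀ i j : ℕ, Relation.ReflTransGen (Rel (cay S) Cm) (b ^ (M * (i : ℤ) + c))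
      (b ^ (M * (j : ℤ) + c)) := fun i j =>
    (Pool.Agent.Helper74.NW.Rel.symm (hbb i)).trans (hbb j)
  have hxb : ∀ i : ℕ, b ^ (M * (i : ℤ)) * x₀ ∈ tr (b ^ (M * (i : ℤ))) E ∧
      b ^ (M * (i : ℤ) + c) ∈ tr (b ^ (M * (i : ℤ))) E := by
    intro i
    refine ⟨?_, ?_⟩
    · rw [mem_tr, inv_mul_cancel_left]
      exact hEx
    · rw [mem_tr, ← zpow_neg, ← zpow_add]
      have : -(M * (i : ℤ)) + (M * (i : ℤ) + c) = c := by ring
      rw [this]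
      exact hEb
  refine Pool.Agent.Helper74.NW.kn_of (Pool.Agent.Helper74.NW.combine z hz T
    (fun i => b ^ (M * (i : ℤ)) * x₀) hx ?_ ?_ ?_ ?_)
  · intro i y hy
    exact conn_R (hTc i) (hx i) hy
  · intro i n y
    have hzn : ∀ (n : ℕ) (y : Γ), z ^ n * y ∈ l ↔ y ∈ l := by
      intro n
      induction n with
      | zero => intro y; rw [pow_zero, one_mul]
      | succ n ih =>
        intro y
        rw [pow_succ, mul_assoc, ih, hzl]
    show (b ^ (M * (i : ℤ)))⁻¹ * (z ^ n * y) ∈ l ↔ (b ^ (M * (i : ℤ)))⁻¹ * y ∈ l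
    have hcm : (b ^ (M * (i : ℤ)))⁻¹ * z ^ n = z ^ n * (b ^ (M * (i : ℤ)))⁻¹ := by
      have h1 : Commute b z := hzb.symm
      exact ((h1.zpow_left _).inv_left.pow_right n).eq
    rw [← mul_assoc, hcm, mul_assoc, hzn]
  · intro i j hij
    rw [Set.disjoint_left]
    intro y h1 h2
    obtain ⟨i', j', x, hxB, rfl⟩ := hP.cov y
    have h3 := hht i i' j' x hxB h1
    have h4 := hht j i' j' x hxB h2
    have h5 := hgap i j hij
    rw [abs_le] at h3 h4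
    rcases abs_cases (M * (i : ℤ) - M * (j : ℤ)) with ⟨h6, _⟩ | ⟨h6, _⟩ <;> omega
  · intro i j hij
    let Av : Set Γ := {y | ∀ k, k ≠ i → k ≠ j → y ∉ T k}
    have hCA : Cm ⊆ Av := fun y hy k _ _ => hy k
    have hEi : tr (b ^ (M * (i : ℤ))) E ⊆ Av := fun y hy k hki _ => hEav i k (Ne.symm hki) y hy
    have hEj : tr (b ^ (M * (j : ℤ))) E ⊆ Av := fun y hy k _ hkj => hEav j k (Ne.symm hkj) y hy
    have hpath : Relation.ReflTransGen (Rel (cay S) Av) (b ^ (M * (i : ℤ)) * x₀)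
        (b ^ (M * (j : ℤ)) * x₀) :=
      ((conn_R' (tr_conn hS _ hEc) hEi (hxb i).1 (hxb i).2).trans
        (Pool.Agent.Helper74.NW.Rel.mono hCA (hbb2 i j))).trans
        (conn_R' (tr_conn hS _ hEc) hEj (hxb j).2 (hxb j).1)
    obtain ⟨E', h1, h2, -, h3⟩ := Pool.Agent.Helper74.NW.Rel.finite hpath (hEi (hxb i).1)
    refine ⟨E', h1, h3, ?_⟩
    intro k' hki hkj
    rw [Set.disjoint_left]
    intro y hy
    exact h2 hy k' hki hkj

end Pool.Agent.Helper2.KZ
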