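import Pool.Agent.Helper95.KZ.Goals

/-!
# Project KZ, packet FAR
-/

set_option autoImplicit false

namespace Pool.Agent.Helper2.KZ

open Pool.Agent.Helper52.Wq2 Pool.Agent.Helper61.NW Pool.Agent.Helper95.KZ

universe u

theorem far : FarStmt.{u} := by
  intro Γ _ S a b k B hP F hF
  have hJ : {j : ℤ | ∃ i : ℤ, ∃ x ∈ B, a ^ i * b ^ j * x ∈ F}.Finite := by
    have hsub : {j : ℤ | ∃ i : ℤ, ∃ x ∈ B, a ^ i * b ^ j * x ∈ F} ⊆
        ⋃ f ∈ F, ⋃ x ∈ B, {j : ℤ | ∃ i : ℤ, a ^ i * b ^ j * x = f} := by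
      rintro j ⟨i, x, hx, hxF⟩
      exact Set.mem_biUnion hxF (Set.mem_biUnion hx ⟨i, rfl⟩)
    refine Set.Finite.subset ?_ hsub
    refine hF.biUnion fun f _ => hP.fin.biUnion fun x _ => Set.Subsingleton.finite ?_
    rintro j ⟨i, hi⟩ j' ⟨i', hi'⟩
    have h1 : a ^ i * b ^ j = a ^ i' * b ^ j' := mul_right_cancel (hi.trans hi'.symm)
    have h2 : a ^ (i - i') * b ^ (j - j') = 1 := by
      have e1 : a ^ (i - i') = a ^ (-i') * a ^ i := by rw [← zpow_add]; congr 1; ring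
      have e2 : b ^ (j - j') = b ^ j * b ^ (-j') := by rw [← zpow_add]; congr 1
      calc a ^ (i - i') * b ^ (j - j') = a ^ (-i') * (a ^ i * b ^ j) * b ^ (-j') := by
            rw [e1, e2]
            simp only [mul_assoc]
        _ = a ^ (-i') * (a ^ i' * b ^ j') * b ^ (-j') := by rw [h1]
        _ = 1 := by
            rw [← mul_assoc, ← zpow_add, neg_add_cancel, zpow_zero, one_mul, ← zpow_add,
              add_neg_cancel, zpow_zero]
    have h3 := (hP.ind _ _ h2).2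
    omega
  obtain ⟨M, hM⟩ := (hJ.image (fun j : ℤ => |j|)).bddAbove
  refine ⟨max 0 M, le_max_left _ _, ?_⟩
  intro i j x hx hxF
  exact (hM ⟨j, ⟨i, x, hx, hxF⟩, rfl⟩).trans (le_max_right _ _)

end Pool.Agent.Helper2.KZ
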