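import Pool.Agent.Helper2.KZ.EN

/-!
# Project KZ, packet JMP
-/

set_option autoImplicit false
set_option maxHeartbeats 4000000

namespace Pool.Agent.Helper2.KZ

open Pool.Agent.Helper52.Wq2 Pool.Agent.Helper61.NW Pool.Agent.Helper95.KZ
open Pool.Agent.Helper74.NW (Rel)

universe u

theorem all_of_closed {Γ : Type u} [Group Γ] {S : Set Γ} (hS : IsGen S) (U : Set Γ)
    (hU : U.Nonempty) (hcl : ∀ x ∈ U, ∀ y, (cay S).Adj x y → y ∈ U) (g : Γ) : g ∈ U := by
  have key : ∀ g : Γ, ∀ x : Γ, x ∈ U ↔ x * g ∈ U := by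
    intro g
    have hg : g ∈ Subgroup.closure S := by rw [hS.1]; exact Subgroup.mem_top g
    induction hg using Subgroup.closure_induction with
    | mem s hs =>
      intro x
      exact ⟨fun h => hcl x h _ (cay_adj_mul hS x hs), fun h => hcl _ h x (cay_adj_mul hS x hs).symm⟩
    | one => intro x; rw [mul_one]
    | mul a b _ _ iha ihb =>
      intro x
      rw [iha x, ihb (x * a), mul_assoc]
    | inv a _ iha =>
      intro x
      have := iha (x * a⁻¹)
      rw [inv_mul_cancel_right] at this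
      exact this.symm
  obtain ⟨u, hu⟩ := hU
  have := (key (u⁻¹ * g) u).1 hu
  rwa [mul_inv_cancel_left] at this

theorem nosep {Γ : Type u} [Group Γ] {S : Set Γ} (hS : IsGen S) (k : Γ) (o : ℕ) (ho : 0 < o)
    (hko : k ^ o = 1) (l R : Set Γ) (hl : l.Nonempty) (hkl : ∀ x ∈ l, k * x ∉ l)
    (hR : R.Nonempty) (hRl : ∀ r ∈ R, r ∉ l) (hkR : ∀ r ∈ R, k⁻¹ * r ∈ R) :
    ∃ r ∈ R, ∃ x ∈ l, Relation.ReflTransGen (Rel (cay S) lᶜ) r (k * x) := by
  by_contra hcon
  push Not at hcon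
  let U : Set Γ := {x | ∃ r ∈ R, Relation.ReflTransGen (Rel (cay S) lᶜ) r x}
  have hUl : ∀ x ∈ U, x ∉ l := by
    rintro x ⟨r, hr, h⟩
    cases h with
    | refl => exact hRl _ hr
    | tail _ h2 => exact h2.2.2
  have hstep : ∀ x ∈ U, ∀ y, (cay S).Adj x y → y ∉ l → y ∈ U := by
    rintro x hx y hxy hy
    have hxl := hUl x hx
    obtain ⟨r, hr, h⟩ := hx
    exact ⟨r, hr, h.tail ⟨hxy, hxl, hy⟩⟩
  have hkU : ∀ x ∈ U, k⁻¹ * x ∈ U := by
    rintro x ⟨r, hr, h⟩
    refine ⟨k⁻¹ * r, hkR r hr, ?_⟩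
    induction h with
    | refl => exact Relation.ReflTransGen.refl
    | @tail b c h1 h2 ih =>
      refine ih.tail ⟨?_, ?_, ?_⟩
      · have := h2.1
        rw [cay_adj hS] at this ⊢
        rwa [mul_inv_rev, mul_assoc, inv_inv, mul_inv_cancel_left]
      · intro hb
        apply hcon r hr _ hb
        rw [mul_inv_cancel_left]
        exact h1
      · intro hc
        apply hcon r hr _ hc
        rw [mul_inv_cancel_left]
        exact h1.tail h2
  have hkU2 : ∀ n : ℕ, ∀ x ∈ U, (k⁻¹) ^ n * x ∈ U := by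
    intro n
    induction n with
    | zero => intro x hx; rwa [pow_zero, one_mul]
    | succ n ih =>
      intro x hx
      rw [pow_succ, mul_assoc]
      exact ih _ (hkU x hx)
  have hk : (k⁻¹) ^ (o - 1) = k := by
    obtain ⟨n, rfl⟩ : ∃ n, o = n + 1 := ⟨o - 1, by omega⟩
    rw [Nat.add_sub_cancel, inv_pow, inv_eq_iff_mul_eq_one, ← pow_succ]
    exact hko
  have hkU3 : ∀ x ∈ U, k * x ∈ U := by
    intro x hx
    have := hkU2 (o - 1) x hx
    rwa [hk] at this
  have hUn : U.Nonempty := by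
    obtain ⟨r, hr⟩ := hR
    exact ⟨r, r, hr, Relation.ReflTransGen.refl⟩
  obtain ⟨y₀, hy₀⟩ := hl
  have hfull : y₀ ∈ U := by
    refine all_of_closed hS U hUn ?_ y₀
    intro x hx y hxy
    by_cases hy : y ∈ l
    · -- `y ∈ l`, `k⁻¹ y ∉ l`
      have h1 : k⁻¹ * y ∉ l := by
        intro h
        have := hkl _ h
        rw [mul_inv_cancel_left] at this
        exact this hy
      have h2 : k⁻¹ * y ∈ U := by
        refine hstep _ (hkU x hx) _ ?_ h1
        rw [cay_adj hS] at hxy ⊢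
        rwa [mul_inv_rev, mul_assoc, inv_inv, mul_inv_cancel_left]
      have h3 := hkU3 _ h2
      rwa [mul_inv_cancel_left] at h3
    · exact hstep x hx y hxy hy
  exact hUl _ hfull hy₀

theorem jmp : JmpStmt.{u} := by
  intro Γ _ S a b k B hP o ho hko l hl hkl L hL0 hL c
  have hS := hP.gen
  obtain ⟨c', hc'⟩ : ∃ c' : ℤ, c' = max c (L + 1) := ⟨_, rfl⟩
  have hc1 : c ≤ c' := by rw [hc']; exact le_max_left _ _
  have hc2 : L + 1 ≤ c' := by rw [hc']; exact le_max_right _ _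
  have hkB : ∀ n : ℕ, ∀ x ∈ B, k ^ n * x ∈ B := by
    intro n
    induction n with
    | zero => intro x hx; rwa [pow_zero, one_mul]
    | succ n ih =>
      intro x hx
      rw [pow_succ, mul_assoc]
      exact ih _ (hP.kB x hx)
  have hki : k⁻¹ = k ^ (o - 1) := by
    obtain ⟨n, rfl⟩ : ∃ n, o = n + 1 := ⟨o - 1, by omega⟩
    rw [Nat.add_sub_cancel, inv_eq_iff_mul_eq_one, ← pow_succ']
    exact hko
  have hkSl : ∀ P : ℤ → Prop, ∀ r ∈ Sl a b B P, k⁻¹ * r ∈ Sl a b B P := by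
    rintro P r ⟨i, j, hj, x, hx, rfl⟩
    refine ⟨i, j, hj, k⁻¹ * x, by rw [hki]; exact hkB _ x hx, ?_⟩
    have h1 : Commute (k⁻¹) (a ^ i) := ((show Commute a k from hP.ak).symm.inv_left).zpow_right i
    have h2 : Commute (k⁻¹) (b ^ j) := ((show Commute b k from hP.bk).symm.inv_left).zpow_right j
    have h3 : k⁻¹ * (a ^ i * b ^ j) = a ^ i * b ^ j * k⁻¹ := (h1.mul_right h2).eq
    rw [← mul_assoc, h3, mul_assoc]
  have hup : ∀ r ∈ Sl a b B (fun j => c' ≤ j), r ∉ l := by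
    rintro r ⟨i, j, hj, x, hx, rfl⟩ hr
    have := hL i j x hx hr
    rw [abs_le] at this
    omega
  have hdn : ∀ r ∈ Sl a b B (fun j => j ≤ -c'), r ∉ l := by
    rintro r ⟨i, j, hj, x, hx, rfl⟩ hr
    have := hL i j x hx hr
    rw [abs_le] at this
    omega
  obtain ⟨r, hr, x, hx, h1⟩ := nosep hS k o ho hko l (Sl a b B (fun j => c' ≤ j)) hl.1 hkl
    ⟨a ^ (0 : ℤ) * b ^ c' * 1, 0, c', le_refl _, 1, hP.one, rfl⟩ hup (hkSl _)
  obtain ⟨r', hr', x', hx', h1'⟩ := nosep hS k o ho hko l (Sl a b B (fun j => j ≤ -c')) hl.1 hkl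
    ⟨a ^ (0 : ℤ) * b ^ (-c') * 1, 0, -c', le_refl _, 1, hP.one, rfl⟩ hdn (hkSl _)
  have h2 : Relation.ReflTransGen (Rel (cay S) lᶜ) (k * x) (k * x') := by
    have h3 := conn_R hl hx hx'
    clear h1 h1' hr hr'
    induction h3 with
    | refl => exact Relation.ReflTransGen.refl
    | @tail p q _ hpq ih =>
      refine (ih hpq.2.1).tail ⟨?_, hkl _ hpq.2.1, hkl _ hpq.2.2⟩
      have := hpq.1
      rw [cay_adj hS] at this ⊢
      rwa [mul_inv_rev, mul_assoc, inv_mul_cancel_left]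
  have hpath := (h1.trans h2).trans (Pool.Agent.Helper74.NW.Rel.symm h1')
  obtain ⟨E, e1, e2, e3, e4⟩ := Pool.Agent.Helper74.NW.Rel.finite hpath (hup r hr)
  refine ⟨insert r {v | v ∈ E ∧ Relation.ReflTransGen (Rel (cay S) E) r v},
    (e1.subset fun v hv => hv.1).insert r, ?_, ?_, ?_, ?_⟩
  · refine conn_of_root (r := r) (Set.mem_insert _ _) ?_
    rintro v (rfl | ⟨_, hv⟩)
    · exact Relation.ReflTransGen.refl
    · induction hv with
      | refl => exact Relation.ReflTransGen.refl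
      | @tail p q h3 h4 ih =>
        exact (ih h4.2.1).tail ⟨h4.1, Or.inr ⟨h4.2.2, h3.tail h4⟩⟩
  · rw [Set.disjoint_left]
    rintro v (rfl | ⟨hv, _⟩)
    · exact hup _ hr
    · exact e2 hv
  · obtain ⟨i, j, hj, y, hy, rfl⟩ := hr
    exact ⟨_, Set.mem_insert _ _, i, j, hc1.trans hj, y, hy, rfl⟩
  · obtain ⟨i, j, hj, y, hy, rfl⟩ := hr'
    exact ⟨_, Or.inr ⟨e3, e4⟩, i, j, hj.trans (by omega), y, hy, rfl⟩

end Pool.Agent.Helper2.KZ
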